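import Mathlib
import Pool.Agent.Helper134_U1.Centre

/-!
# Positive real parameters
-/

set_option autoImplicit false
open Set Filter Topology Metric

namespace Pool.Agent.Helper134.Sharp

open Pool.Agent.H712R2 (P fc P_succ P_one P_zero)

/-- The critical orbit at a real parameter. -/
noncomputable def q (n : ℕ) : ℕ → ℝ → ℝ
  | 0, _ => 0
  | j + 1, c => q n j c ^ n + c

theorem q_succ (n j : ℕ) (c : ℝ) : q n (j + 1) c = q n j c ^ n + c := rfl

theorem P_ofReal (n j : ℕ) (c : ℝ) : P n j (c : ℂ) = (q n j c : ℂ) := by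
  induction j with
  | zero => rw [P_zero]; simp [q]
  | succ j ih => rw [P_succ, ih, q_succ]; push_cast; ring

theorem continuous_q (n j : ℕ) : Continuous (q n j) := by
  induction j with
  | zero => exact continuous_const
  | succ j ih => exact (ih.pow n).add continuous_id

theorem q_one {n : ℕ} (hn : 2 ≤ n) (c : ℝ) : q n 1 c = c := by
  rw [q_succ, q, zero_pow (by omega), zero_add]

theorem q_nonneg {n : ℕ} {c : ℝ} (hc : 0 ≤ c) (j : ℕ) : 0 ≤ q n j c := by
  induction j with
  | zero => exact le_rfl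
  | succ j ih => rw [q_succ]; positivity

theorem q_le_succ {n : ℕ} {c : ℝ} (hc : 0 ≤ c) (j : ℕ) : q n j c ≤ q n (j + 1) c := by
  induction j with
  | zero => exact q_nonneg hc 1
  | succ j ih =>
    rw [q_succ n j, q_succ n (j + 1)]
    have := q_nonneg (n := n) hc j
    gcongr

theorem q_mono {n : ℕ} {c : ℝ} (hc : 0 ≤ c) : Monotone (fun j => q n j c) :=
  monotone_nat_of_le_succ (q_le_succ hc)

/-- A positive real parameter with `P_{k+1} = 1`. -/
theorem exists_c0 {n : ℕ} (hn : 2 ≤ n) (k : ℕ) : ∃ c : ℝ, 0 < c ∧ c ≤ 1 ∧ q n (k + 1) c = 1 := by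
  have h0 : q n (k + 1) 0 = 0 := by
    have : ∀ j, q n j 0 = 0 := by
      intro j
      induction j with
      | zero => rfl
      | succ j ih => rw [q_succ, ih, zero_pow (by omega), zero_add]
    exact this _
  have h1 : 1 ≤ q n (k + 1) 1 := by
    rw [q_succ]
    have := q_nonneg (n := n) (zero_le_one : (0:ℝ) ≤ 1) k
    have : 0 ≤ q n k 1 ^ n := by positivity
    linarith
  obtain ⟨c, hc, hc1⟩ := intermediate_value_Icc (zero_le_one : (0:ℝ) ≤ 1)
    ((continuous_q n (k + 1)).continuousOn) (show (1:ℝ) ∈ Icc (q n (k + 1) 0) (q n (k + 1) 1) from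
      ⟨by rw [h0]; exact zero_le_one, h1⟩)
  refine ⟨c, lt_of_le_of_ne hc.1 ?_, hc.2, hc1⟩
  intro h
  rw [← h, h0] at hc1
  exact zero_ne_one hc1

/-- The heights at a positive parameter `c`, while the orbit is at most `1`. -/
theorem heights {n : ℕ} (hn : 2 ≤ n) {c : ℝ} (hc0 : 0 < c) {j : ℕ} (hj1 : 1 ≤ j)
    (hqj1 : q n (j + 1) c ≤ 1) :
    c * (Real.log (n * q n (j + 1) c ^ n) - Real.log (n * c ^ n)) ≤ n * q n j c ^ n ∧
      Real.log (n * c ^ n) + n * q n j c ^ n ≤ Real.log (n * q n (j + 1) c ^ n) := by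
  have hn0 : (0 : ℝ) < n := by
    have : 0 < n := by omega
    exact_mod_cast this
  have hmono := q_mono (n := n) hc0.le
  have hcj : c ≤ q n j c := by
    have := hmono hj1
    simp only [q_one hn] at this
    exact this
  have hqj : 0 < q n j c := by linarith
  have hE0 : 0 < n * q n j c ^ n := by positivity
  have hx : q n (j + 1) c = c * (1 + n * q n j c ^ n / (n * c)) := by
    rw [q_succ]
    field_simp
    ring
  have hx0 : 0 < n * q n j c ^ n / (n * c) := by positivity
  have hT : Real.log (n * c ^ n) = Real.log n + n * Real.log c := by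
    rw [Real.log_mul hn0.ne' (by positivity), Real.log_pow]
  have hH : Real.log (n * q n (j + 1) c ^ n) = Real.log (n * c ^ n) +
      n * Real.log (1 + n * q n j c ^ n / (n * c)) := by
    have hq1 : 0 < q n (j + 1) c := by
      rw [q_succ]
      positivity
    rw [Real.log_mul hn0.ne' (by positivity), Real.log_pow, hx, Real.log_mul hc0.ne' (by positivity),
      hT]
    ring
  constructor
  · have h1 : Real.log (1 + n * q n j c ^ n / (n * c)) ≤ n * q n j c ^ n / (n * c) := by
      have := Real.log_le_sub_one_of_pos (show 0 < 1 + n * q n j c ^ n / (n * c) by positivity)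
      linarith
    have h2 : c * (n * (n * q n j c ^ n / (n * c))) = n * q n j c ^ n := by
      field_simp
    rw [hH, add_sub_cancel_left]
    calc c * (n * Real.log (1 + n * q n j c ^ n / (n * c)))
        ≤ c * (n * (n * q n j c ^ n / (n * c))) := by gcongr
      _ = _ := h2
  · rw [hH]
    have h1 : (n * q n j c ^ n / (n * c)) * c ≤ Real.log (1 + n * q n j c ^ n / (n * c)) := by
      set x := n * q n j c ^ n / (n * c) with hxdef
      have h2 : x / (1 + x) ≤ Real.log (1 + x) := by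
        have h3 := Real.log_le_sub_one_of_pos (show 0 < (1 + x)⁻¹ by positivity)
        rw [Real.log_inv] at h3
        have h4 : x / (1 + x) = 1 - (1 + x)⁻¹ := by field_simp; ring
        linarith
      have h3 : c * (1 + x) ≤ 1 := by rw [← hx]; exact hqj1
      have h4 : c ≤ 1 / (1 + x) := by
        rw [le_div_iff₀ (by positivity)]
        exact h3
      calc x * c ≤ x * (1 / (1 + x)) := by gcongr
        _ = x / (1 + x) := by ring
        _ ≤ _ := h2
    have h2 : n * ((n * q n j c ^ n / (n * c)) * c) = n * q n j c ^ n := by field_simp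
    nlinarith

/-- Lower bound for the parameter. -/
theorem c0_lower {n : ℕ} (hn : 2 ≤ n) {k : ℕ} {c : ℝ} (hc0 : 0 < c)
    (h : q n (k + 1) c = 1) : 1 / 4 < n * c ^ (n - 1) := by
  by_contra hcon
  push Not at hcon
  have hn0 : (0 : ℝ) < n := by
    have : 0 < n := by omega
    exact_mod_cast this
  have hn2 : (2 : ℝ) ≤ n := by exact_mod_cast hn
  have hcn : ‖(c : ℂ)‖ = c := by rw [Complex.norm_real, Real.norm_eq_abs, abs_of_pos hc0]
  have h1 := (Pool.Agent.Helper134.U1.deep (c := (c : ℂ)) hn (by rw [hcn]; exact hcon) (k + 1)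
    (by omega)).1
  rw [P_ofReal, h, hcn] at h1
  simp only [Complex.ofReal_one, norm_one] at h1
  -- `(1 + 1 / n) ^ (n - 1) c ^ (n - 1) ≥ 1`
  have h2 : 1 ≤ (c * (1 + 1 / n)) ^ (n - 1) := one_le_pow₀ h1
  have h3 : (1 + 1 / (n : ℝ)) ^ (n - 1) ≤ 3 := by
    refine le_trans ?_ (Pool.Agent.Helper134.U1.one_add_pow hn)
    apply pow_le_pow_right₀ _ (by omega)
    have : (0 : ℝ) ≤ 1 / n := by positivity
    linarith
  rw [mul_pow] at h2
  have h4 : 0 ≤ c ^ (n - 1) := by positivity
  have h5 : c ^ (n - 1) * (1 + 1 / (n : ℝ)) ^ (n - 1) ≤ c ^ (n - 1) * 3 := by gcongr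
  nlinarith

theorem deriv_ge {n : ℕ} (hn : 2 ≤ n) {c : ℝ} (hc0 : 0 < c) (k : ℕ)
    (hk : q n (k + 1) c ≤ 1) :
    ∃ d : ℝ, deriv (P n (k + 1)) (c : ℂ) = (d : ℂ) ∧ 1 ≤ d ∧
      ∏ i ∈ Finset.range k, (n * q n (i + 1) c ^ n) ≤ d := by
  have hn0 : (0 : ℝ) < n := by
    have : 0 < n := by omega
    exact_mod_cast this
  induction k with
  | zero =>
    have h1 : P n 1 = id := by
      funext t
      exact P_one (by omega) t
    refine ⟨1, ?_, le_rfl, by simp⟩
    rw [zero_add, h1, deriv_id]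
    simp
  | succ k ih =>
    have hq1 : q n (k + 1) c ≤ 1 := (q_le_succ hc0.le (k + 1)).trans hk
    obtain ⟨d, hd, hd1, hd2⟩ := ih hq1
    have hPd : HasDerivAt (P n (k + 1)) (deriv (P n (k + 1)) (c : ℂ)) (c : ℂ) :=
      (Pool.Agent.H713R2.differentiable_P n (k + 1) c).hasDerivAt
    have h8 := (hPd.pow n).add (hasDerivAt_id (c : ℂ))
    have h9 : P n (k + 1 + 1) = (P n (k + 1)) ^ n + id := by
      funext t
      simp only [Pi.add_apply, Pi.pow_apply, id, P_succ]
    have hqk := q_nonneg (n := n) hc0.le (k + 1)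
    refine ⟨n * q n (k + 1) c ^ (n - 1) * d + 1, ?_, ?_, ?_⟩
    · rw [h9, h8.deriv, hd, P_ofReal]
      push_cast
      ring
    · have : 0 ≤ n * q n (k + 1) c ^ (n - 1) * d := by positivity
      linarith
    · rw [Finset.prod_range_succ]
      have h1 : q n (k + 1) c ^ n ≤ q n (k + 1) c ^ (n - 1) :=
        pow_le_pow_of_le_one hqk hq1 (by omega)
      have h2 : 0 ≤ ∏ i ∈ Finset.range k, (n * q n (i + 1) c ^ n) := by
        apply Finset.prod_nonneg
        intro i _
        have := q_nonneg (n := n) hc0.le (i + 1)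
        positivity
      calc (∏ i ∈ Finset.range k, (n * q n (i + 1) c ^ n)) * (n * q n (k + 1) c ^ n)
          ≤ d * (n * q n (k + 1) c ^ (n - 1)) := by gcongr
        _ ≤ _ := by linarith

/-- A positive real parameter of the Multibrot set. -/
theorem real_mem {n : ℕ} (hn : 2 ≤ n) {s : ℝ} (hs : 0 < s)
    (hsM : (s : ℂ) ∈ N62a1eb23.multibrotSet n) : n * s ^ (n - 1) ≤ 1 := by
  have hn0 : (0 : ℝ) < n := by
    have : 0 < n := by omega
    exact_mod_cast this
  have hb : ∀ j, q n j s ≤ 2 := by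
    intro j
    have h1 := (Pool.Agent.H712R2.mem_multibrot_iff hn (s : ℂ)).mp hsM j
    rw [P_ofReal, Complex.norm_real, Real.norm_eq_abs, abs_of_nonneg (q_nonneg hs.le j)] at h1
    exact h1
  have hbdd : BddAbove (range (fun j => q n j s)) := ⟨2, by rintro _ ⟨j, rfl⟩; exact hb j⟩
  have hlim := tendsto_atTop_ciSup (q_mono (n := n) hs.le) hbdd
  set x := ⨆ j, q n j s with hx
  have h1 : Tendsto (fun j => q n (j + 1) s) atTop (𝓝 x) := (tendsto_add_atTop_iff_nat 1).2 hlim
  have h2 : Tendsto (fun j => q n (j + 1) s) atTop (𝓝 (x ^ n + s)) := (hlim.pow n).add_const s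
  have h3 : x = x ^ n + s := tendsto_nhds_unique h1 h2
  have hsx : s ≤ x := by
    have := le_ciSup hbdd 1
    simp only [q_one hn] at this
    exact this
  have hx0 : 0 < x := by linarith
  -- `u = x ^ (n - 1)`
  have hxn : x ^ n = x ^ (n - 1) * x := by rw [← pow_succ, Nat.sub_add_cancel (by omega)]
  set u := x ^ (n - 1) with hu
  have hu0 : 0 < u := by positivity
  have hs1 : s = x * (1 - u) := by rw [hxn] at h3; linarith
  have hu1 : u < 1 := by
    by_contra hcon
    push Not at hcon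
    nlinarith
  have h4 : s ^ (n - 1) = u * (1 - u) ^ (n - 1) := by rw [hs1, mul_pow]
  have h5 : 1 + ((n - 1 : ℕ) : ℝ) * u ≤ (1 + u) ^ (n - 1) :=
    one_add_mul_le_pow (by linarith) (n - 1)
  have h6 : (1 - u) ^ (n - 1) * (1 + ((n - 1 : ℕ) : ℝ) * u) ≤ 1 := by
    calc (1 - u) ^ (n - 1) * (1 + ((n - 1 : ℕ) : ℝ) * u) ≤ (1 - u) ^ (n - 1) * (1 + u) ^ (n - 1) := by
          have : 0 ≤ (1 - u) ^ (n - 1) := pow_nonneg (by linarith) _
          gcongr
      _ = (1 - u ^ 2) ^ (n - 1) := by rw [← mul_pow]; ring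
      _ ≤ 1 := pow_le_one₀ (by nlinarith) (by nlinarith)
  rw [Nat.cast_sub (by omega), Nat.cast_one] at h6
  rw [h4]
  have h7 : 0 ≤ (1 - u) ^ (n - 1) := pow_nonneg (by linarith) _
  have h8 : n * u ≤ 1 + (n - 1) * u := by linarith
  calc n * (u * (1 - u) ^ (n - 1)) = (1 - u) ^ (n - 1) * (n * u) := by ring
    _ ≤ (1 - u) ^ (n - 1) * (1 + (n - 1) * u) := by gcongr
    _ ≤ 1 := h6

end Pool.Agent.Helper134.Sharp
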