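import Mathlib
import Pool.Agent.Helper134_Sharp.Real

/-!
# Iterated logarithms and the heights
-/

set_option autoImplicit false
open Set Filter Topology Metric

namespace Pool.Agent.Helper134.Sharp

open Pool.Agent.H712R2 (P fc P_succ P_one P_zero)

theorem le_exp_iterate (A : ℝ) (m : ℕ) : A ≤ Real.exp^[m] A := by
  induction m with
  | zero => exact le_rfl
  | succ m ih =>
    rw [Function.iterate_succ_apply']
    have := Real.add_one_le_exp (Real.exp^[m] A)
    linarith

theorem log_iterate_ge {A x : ℝ} {k : ℕ} (h : Real.exp^[k + 1] A ≤ x) :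
    ∀ i, i ≤ k + 1 → Real.exp^[k + 1 - i] A ≤ Real.log^[i] x := by
  intro i
  induction i with
  | zero => intro _; simpa using h
  | succ i ih =>
    intro hi
    have h1 := ih (by omega)
    obtain ⟨m, hm⟩ : ∃ m, k + 1 - i = m + 1 := ⟨k - i, by omega⟩
    have hm' : k + 1 - (i + 1) = m := by omega
    rw [hm, Function.iterate_succ_apply'] at h1
    rw [hm', Function.iterate_succ_apply']
    have h2 := Real.log_le_log (Real.exp_pos _) h1
    rwa [Real.log_exp] at h2

/-- `L_i ≥ A` -/
theorem L_ge {A x : ℝ} {k : ℕ} (h : Real.exp^[k + 1] A ≤ x) {i : ℕ} (hi : i ≤ k + 1) :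
    A ≤ Real.log^[i] x := (le_exp_iterate A _).trans (log_iterate_ge h i hi)

theorem L_exp {A x : ℝ} {k : ℕ} (hA : 0 < A) (h : Real.exp^[k + 1] A ≤ x) {i : ℕ} (hi : i ≤ k + 1) :
    Real.exp (Real.log^[i + 1] x) = Real.log^[i] x := by
  rw [Function.iterate_succ_apply']
  exact Real.exp_log (hA.trans_le (L_ge h hi))

theorem four_mul_le_exp {x : ℝ} (hx : 10 ≤ x) : 4 * (x + 2) ≤ Real.exp x := by
  have h1 := Real.quadratic_le_exp_of_nonneg (show 0 ≤ x by linarith)
  nlinarith

theorem sq_le_exp {x : ℝ} (hx : 10 ≤ x) : (x + 3) * (x + 2) ≤ Real.exp x - 1 := by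
  have h1 := Real.quadratic_le_exp_of_nonneg (show 0 ≤ x / 2 by linarith)
  have h2 : Real.exp x = Real.exp (x / 2) * Real.exp (x / 2) := by
    rw [← Real.exp_add]
    congr 1
    ring
  have h3 : 1 + 7 / 4 * x ≤ Real.exp (x / 2) := by nlinarith
  have h4 : (1 + 7 / 4 * x) * (1 + 7 / 4 * x) ≤ Real.exp (x / 2) * Real.exp (x / 2) := by
    apply mul_le_mul h3 h3 (by linarith) (by linarith)
  rw [h2]
  nlinarith

section

variable {n k : ℕ} {c A : ℝ}

/-- The lower bound for the first height. -/
theorem t0_ge (hn : 10 ≤ Real.log n) (hn2 : 2 ≤ n) (hc0 : 0 < c) (hc1 : c ≤ 1)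
    (h : q n (k + 1) c = 1) : -3 ≤ Real.log (n * c ^ n) ∧ (Real.log n + 3) * (1 - c) ≤ 1 := by
  have hn0 : (0 : ℝ) < n := by
    have : 0 < n := by omega
    exact_mod_cast this
  have hn1 : (1 : ℝ) < n := by
    have : 1 < n := by omega
    exact_mod_cast this
  have h1 := c0_lower hn2 hc0 h
  have h2 : Real.log (1 / 4) ≤ Real.log (n * c ^ (n - 1)) := Real.log_le_log (by norm_num) h1.le
  rw [Real.log_mul hn0.ne' (by positivity), Real.log_pow, Nat.cast_sub (by omega), Nat.cast_one,
    one_div, Real.log_inv] at h2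
  have hl4 : Real.log 4 ≤ 2 := by
    have h3 : Real.log 4 = 2 * Real.log 2 := by
      rw [show (4:ℝ) = 2 ^ 2 by norm_num, Real.log_pow]
      norm_num
    have := Real.log_two_lt_d9
    linarith
  have hexp : Real.exp (Real.log n) = n := Real.exp_log hn0
  have hsq := sq_le_exp hn
  rw [hexp] at hsq
  have hlc : Real.log c ≤ 0 := Real.log_nonpos hc0.le hc1
  -- `-log c ≤ (log n + 2) / (n - 1)`
  have h3 : (n - 1) * (-Real.log c) ≤ Real.log n + 2 := by linarith
  have h4 : (Real.log n + 3) * (-Real.log c) ≤ 1 := by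
    have h5 : (n - 1) * ((Real.log n + 3) * (-Real.log c)) ≤ (n - 1) * 1 := by
      calc (n - 1) * ((Real.log n + 3) * (-Real.log c))
          = (Real.log n + 3) * ((n - 1) * (-Real.log c)) := by ring
        _ ≤ (Real.log n + 3) * (Real.log n + 2) := by
            apply mul_le_mul_of_nonneg_left h3
            linarith
        _ ≤ n - 1 := hsq
        _ = (n - 1) * 1 := by ring
    exact le_of_mul_le_mul_left h5 (by linarith)
  constructor
  · rw [Real.log_mul hn0.ne' (by positivity), Real.log_pow]
    nlinarith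
  · have h5 : 1 - c ≤ -Real.log c := by
      have := Real.log_le_sub_one_of_pos hc0
      linarith
    calc (Real.log n + 3) * (1 - c) ≤ (Real.log n + 3) * (-Real.log c) := by
          apply mul_le_mul_of_nonneg_left h5
          linarith
      _ ≤ 1 := h4

/-- The recursion for the heights. -/
theorem rec_height (hn : 10 ≤ Real.log n) (hn2 : 2 ≤ n) (hc0 : 0 < c) (hc1 : c ≤ 1)
    (h : q n (k + 1) c = 1) {j : ℕ} (hj1 : 1 ≤ j) (hjk : j ≤ k) :
    Real.log (n * q n (j + 1) c ^ n) - Real.log (n * c ^ n) - 1 ≤ n * q n j c ^ n ∧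
      Real.log (n * c ^ n) + n * q n j c ^ n ≤ Real.log (n * q n (j + 1) c ^ n) := by
  have hn0 : (0 : ℝ) < n := by
    have : 0 < n := by omega
    exact_mod_cast this
  have hq1 : q n (j + 1) c ≤ 1 := by
    rw [← h]
    exact q_mono hc0.le (by omega : j + 1 ≤ k + 1)
  obtain ⟨h1, h2⟩ := heights hn2 hc0 hj1 hq1
  obtain ⟨h3, h4⟩ := t0_ge hn hn2 hc0 hc1 h
  refine ⟨?_, h2⟩
  have hq0 := q_nonneg (n := n) hc0.le (j + 1)
  have hup : Real.log (n * q n (j + 1) c ^ n) ≤ Real.log n := by
    have hqpos : 0 < q n (j + 1) c := by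
      rw [q_succ]
      have := q_nonneg (n := n) hc0.le j
      positivity
    apply Real.log_le_log (by positivity)
    have : q n (j + 1) c ^ n ≤ 1 := pow_le_one₀ hq0 hq1
    nlinarith
  have h5 : (1 - c) * (Real.log (n * q n (j + 1) c ^ n) - Real.log (n * c ^ n)) ≤ 1 := by
    calc (1 - c) * (Real.log (n * q n (j + 1) c ^ n) - Real.log (n * c ^ n))
        ≤ (1 - c) * (Real.log n + 3) := by
          apply mul_le_mul_of_nonneg_left _ (by linarith)
          linarith
      _ ≤ 1 := by linarith
  linarith

/-- The heights against the iterated logarithms. -/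
theorem height_ge (hA : 10 ≤ A) (hk : Real.exp^[k + 1] A ≤ n) (hn2 : 2 ≤ n) (hc0 : 0 < c)
    (hc1 : c ≤ 1) (h : q n (k + 1) c = 1) :
    Real.log (n * c ^ n) ≤ Real.log^[k + 1] n ∧
    (∀ i, i ≤ k → Real.log^[i + 1] n - 1 ≤ Real.log (n * q n (k + 1 - i) c ^ n)) ∧
    (∀ i, i < k → Real.log^[i + 1] n - (Real.log^[k + 1] n + 2) ≤ n * q n (k - i) c ^ n) := by
  have hn0 : (0 : ℝ) < n := by
    have : 0 < n := by omega
    exact_mod_cast this
  have hn10 : 10 ≤ Real.log n := by
    have := L_ge hk (i := 1) (by omega)
    simp only [Function.iterate_one] at this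
    linarith
  set t := Real.log (n * c ^ n) with ht
  set X := Real.log^[k + 1] (n : ℝ) with hX
  have hXA : A ≤ X := L_ge hk le_rfl
  have hcn : (0 : ℝ) < n * c ^ n := by positivity
  -- upper bound for `t`
  have htX : t ≤ X := by
    rcases le_or_gt t 0 with h0 | h0
    · linarith
    · have key : ∀ i, i ≤ k → Real.log (n * q n (k + 1 - i) c ^ n) ≤ Real.log^[i + 1] n := by
        intro i
        induction i with
        | zero =>
          intro _
          rw [Nat.sub_zero, h, one_pow, mul_one]
          simp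
        | succ i ih =>
          intro hi
          have h1 := ih (by omega)
          have h2 := (rec_height hn10 hn2 hc0 hc1 h (j := k - i) (by omega) (by omega)).2
          have h3 : k - i + 1 = k + 1 - i := by omega
          have h4 : k + 1 - (i + 1) = k - i := by omega
          rw [h3] at h2
          rw [h4, Function.iterate_succ_apply']
          have hqpos : 0 < q n (k - i) c := by
            have h5 := q_mono (n := n) hc0.le (show 1 ≤ k - i by omega)
            simp only [q_one hn2] at h5
            linarith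
          apply Real.log_le_log (by positivity)
          linarith
      have h1 := key k le_rfl
      rw [show k + 1 - k = 1 by omega, q_one hn2] at h1
      exact h1
  have step : ∀ i, i < k → Real.log^[i + 1] n - 1 ≤ Real.log (n * q n (k + 1 - i) c ^ n) →
      Real.log^[i + 1] n - (X + 2) ≤ n * q n (k - i) c ^ n := by
    intro i hi h1
    have h2 := (rec_height hn10 hn2 hc0 hc1 h (j := k - i) (by omega) (by omega)).1
    have h3 : k - i + 1 = k + 1 - i := by omega
    rw [h3] at h2
    linarith
  have main : ∀ i, i ≤ k → Real.log^[i + 1] n - 1 ≤ Real.log (n * q n (k + 1 - i) c ^ n) := by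
    intro i
    induction i with
    | zero =>
      intro _
      rw [Nat.sub_zero, h, one_pow, mul_one]
      simp
    | succ i ih =>
      intro hi
      have h1 := step i (by omega) (ih (by omega))
      have h4 : k + 1 - (i + 1) = k - i := by omega
      rw [h4, Function.iterate_succ_apply']
      -- `L_{i+1} ≥ e ^ X ≥ 4 (X + 2)`
      have h5 : 4 * (X + 2) ≤ Real.log^[i + 1] n := by
        have h6 : Real.exp X ≤ Real.log^[i + 1] n := by
          have h7 : ∀ m, i + 1 + m ≤ k → Real.log^[i + 1 + m] (n : ℝ) ≤ Real.log^[i + 1] n := by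
            intro m
            induction m with
            | zero => intro _; exact le_rfl
            | succ m ihm =>
              intro hm
              refine le_trans ?_ (ihm (by omega))
              have h8 := L_exp (by linarith) hk (i := i + 1 + m) (by omega)
              have h9 := Real.add_one_le_exp (Real.log^[i + 1 + m + 1] (n : ℝ))
              rw [show i + 1 + (m + 1) = i + 1 + m + 1 by ring]
              linarith
          have h8 := h7 (k - (i + 1)) (by omega)
          rw [show i + 1 + (k - (i + 1)) = k by omega] at h8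
          have h9 := L_exp (by linarith) hk (i := k) (by omega)
          rw [hX, h9]
          exact h8
        have h7 := four_mul_le_exp (x := X) (by linarith)
        linarith
      have h6 : Real.log^[i + 1] n * (1 / 2) ≤ n * q n (k - i) c ^ n := by linarith
      have hLpos : 0 < Real.log^[i + 1] (n : ℝ) := by linarith
      have h7 := Real.log_le_log (by positivity) h6
      rw [Real.log_mul hLpos.ne' (by norm_num), one_div, Real.log_inv] at h7
      have := Real.log_two_lt_d9
      linarith
  exact ⟨htX, main, fun i hi => step i hi (main i hi.le)⟩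

theorem L_double (hA : 10 ≤ A) (hk : Real.exp^[k + 1] A ≤ n) {m : ℕ} (hm : m ≤ k) :
    2 * Real.log^[m + 1] (n : ℝ) ≤ Real.log^[m] n := by
  rw [← L_exp (by linarith) hk (i := m) (by omega)]
  have h1 := L_ge hk (i := m + 1) (by omega)
  have h2 := Real.quadratic_le_exp_of_nonneg (show 0 ≤ Real.log^[m + 1] (n : ℝ) by linarith)
  nlinarith

theorem prod_ge (hA : 10 ≤ A) (hk : Real.exp^[k + 1] A ≤ n) :
    1 / 2 * ∏ i ∈ Finset.range k, Real.log^[i + 1] (n : ℝ) ≤
      ∏ i ∈ Finset.range k, (Real.log^[i + 1] (n : ℝ) - (Real.log^[k + 1] n + 2)) := by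
  set X := Real.log^[k + 1] (n : ℝ) with hX
  have hXA : A ≤ X := L_ge hk le_rfl
  have hk4 : 4 * (X + 2) ≤ Real.log^[k] (n : ℝ) := by
    rw [← L_exp (by linarith) hk (i := k) (by omega)]
    exact four_mul_le_exp (by linarith)
  have hpos : ∀ i, i ≤ k + 1 → 0 < Real.log^[i] (n : ℝ) := fun i hi => by
    have := L_ge hk hi
    linarith
  have hmono : ∀ m, m ≤ k → Real.log^[k] (n : ℝ) ≤ Real.log^[k - m] n := by
    intro m
    induction m with
    | zero => intro _; exact le_rfl
    | succ m ih =>
      intro hm
      refine (ih (by omega)).trans ?_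
      have h1 := L_double hA hk (m := k - (m + 1)) (by omega)
      rw [show k - (m + 1) + 1 = k - m by omega] at h1
      have := hpos (k - m) (by omega)
      linarith
  have hge : ∀ m, m ≤ k → 4 * (X + 2) ≤ Real.log^[m] (n : ℝ) := by
    intro m hm
    have := hmono (k - m) (by omega)
    rw [show k - (k - m) = m by omega] at this
    linarith
  have key : ∀ m, m ≤ k → (1 - 2 * (X + 2) / Real.log^[m] (n : ℝ)) *
      ∏ i ∈ Finset.range m, Real.log^[i + 1] (n : ℝ) ≤
        ∏ i ∈ Finset.range m, (Real.log^[i + 1] (n : ℝ) - (X + 2)) := by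
    intro m
    induction m with
    | zero =>
      intro _
      simp only [Finset.range_zero, Finset.prod_empty, mul_one]
      have : 0 ≤ 2 * (X + 2) / Real.log^[0] (n : ℝ) := by
        have := hpos 0 (by omega)
        have : 0 ≤ 2 * (X + 2) := by linarith
        positivity
      linarith
    | succ m ih =>
      intro hm
      have h1 := ih (by omega)
      rw [Finset.prod_range_succ, Finset.prod_range_succ]
      have hL := hpos (m + 1) (by omega)
      have hLm := hpos m (by omega)
      have hge1 := hge (m + 1) hm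
      have hprod : 0 ≤ ∏ i ∈ Finset.range m, Real.log^[i + 1] (n : ℝ) := by
        apply Finset.prod_nonneg
        intro i hi
        exact (hpos (i + 1) (by have := Finset.mem_range.mp hi; omega)).le
      have hdouble := L_double hA hk (m := m) (by omega)
      have h2 : 2 * (X + 2) / Real.log^[m] (n : ℝ) ≤ (X + 2) / Real.log^[m + 1] (n : ℝ) := by
        rw [div_le_div_iff₀ hLm hL]
        nlinarith
      have h3 : 0 ≤ (X + 2) / Real.log^[m + 1] (n : ℝ) := by
        have : 0 ≤ X + 2 := by linarith
        positivity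
      have h0 : 0 ≤ 2 * (X + 2) / Real.log^[m] (n : ℝ) := by
        have : 0 ≤ 2 * (X + 2) := by linarith
        positivity
      calc (1 - 2 * (X + 2) / Real.log^[m + 1] (n : ℝ)) *
            ((∏ i ∈ Finset.range m, Real.log^[i + 1] (n : ℝ)) * Real.log^[m + 1] (n : ℝ))
          ≤ ((1 - 2 * (X + 2) / Real.log^[m] (n : ℝ)) *
              (1 - (X + 2) / Real.log^[m + 1] (n : ℝ))) *
            ((∏ i ∈ Finset.range m, Real.log^[i + 1] (n : ℝ)) * Real.log^[m + 1] (n : ℝ)) := by
            apply mul_le_mul_of_nonneg_right _ (by positivity)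
            have h4 : 2 * (X + 2) / Real.log^[m + 1] (n : ℝ) =
                (X + 2) / Real.log^[m + 1] (n : ℝ) + (X + 2) / Real.log^[m + 1] (n : ℝ) := by ring
            nlinarith
        _ = ((1 - 2 * (X + 2) / Real.log^[m] (n : ℝ)) *
              ∏ i ∈ Finset.range m, Real.log^[i + 1] (n : ℝ)) *
              (Real.log^[m + 1] (n : ℝ) - (X + 2)) := by field_simp
        _ ≤ _ := by
            apply mul_le_mul_of_nonneg_right h1
            linarith
  have h1 := key k le_rfl
  have hLk := hpos k (by omega)
  have h2 : 2 * (X + 2) / Real.log^[k] (n : ℝ) ≤ 1 / 2 := by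
    rw [div_le_div_iff₀ hLk (by norm_num)]
    linarith
  have hprod : 0 ≤ ∏ i ∈ Finset.range k, Real.log^[i + 1] (n : ℝ) := by
    apply Finset.prod_nonneg
    intro i hi
    exact (hpos (i + 1) (by have := Finset.mem_range.mp hi; omega)).le
  refine le_trans ?_ h1
  apply mul_le_mul_of_nonneg_right _ hprod
  linarith

end

end Pool.Agent.Helper134.Sharp
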