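import Mathlib
import Pool.Agent.Helper134_Sharp.Iter

/-!
# Sharpness of the coarse local connectivity
-/

set_option autoImplicit false
open Set Filter Topology Metric

namespace Pool.Agent.Helper134.Sharp

open Pool.Agent.H712R2 (P fc P_succ P_one P_zero)
open Pool.Agent.Helper217.Width (A₀ one_le_A₀)
open Pool.Agent.Helper134.U1 (exists_centre centre_mem Lam)

theorem conj_P (n k : ℕ) (c : ℂ) : P n k ((starRingEnd ℂ) c) = (starRingEnd ℂ) (P n k c) := by
  induction k with
  | zero => rw [P_zero, P_zero, map_zero]
  | succ k ih => rw [P_succ, P_succ, ih]; simp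

theorem sharp : ∃ A : ℝ, 0 < A ∧ ∀ n k : ℕ, Real.exp^[k + 1] A ≤ n →
    ∃ x ∈ N62a1eb23.multibrotSet n, ∃ y ∈ N62a1eb23.multibrotSet n,
      n * dist x y * ∏ i ∈ Finset.range k, Real.log^[i + 1] (n : ℝ) ≤ A ∧
      ∀ S ⊆ N62a1eb23.multibrotSet n, IsPreconnected S → x ∈ S → y ∈ S →
        Real.log^[k + 1] (n : ℝ) ≤ A * (n * Metric.diam S) := by
  have hA₀ := one_le_A₀
  set K := 2000000 * A₀ with hK
  have hK1 : 2000000 ≤ K := by linarith
  refine ⟨100 * K, by positivity, ?_⟩
  intro n k hk
  have hA10 : 10 ≤ 100 * K := by linarith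
  have hXA : 100 * K ≤ Real.log^[k + 1] (n : ℝ) := L_ge hk le_rfl
  have hlogn : 100 * K ≤ Real.log n := by
    have := L_ge hk (i := 1) (by omega)
    simpa using this
  have hn2 : 2 ≤ n := by
    by_contra hcon
    have h1 : n ≤ 1 := by omega
    have h2 : (n : ℝ) ≤ 1 := by exact_mod_cast h1
    have h3 : Real.log n ≤ 0 := Real.log_nonpos (by positivity) h2
    linarith
  have hn0 : (0 : ℝ) < n := by
    have : 0 < n := by omega
    exact_mod_cast this
  obtain ⟨c, hc0, hc1, hq⟩ := exists_c0 hn2 k
  obtain ⟨ht1, ht2, ht3⟩ := height_ge hA10 hk hn2 hc0 hc1 hq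
  have hlow := t0_ge (k := k) (by linarith) hn2 hc0 hc1 hq
  have hc12 : 12 / 13 ≤ c := by nlinarith [hlow.2]
  set X := Real.log^[k + 1] (n : ℝ) with hX
  set t := Real.log (n * c ^ n) with ht
  have htX : X - 1 ≤ t := by
    have := ht2 k le_rfl
    rw [show k + 1 - k = 1 by omega, q_one hn2] at this
    exact this
  -- the centre
  have hcn : ‖(c : ℂ)‖ = c := by rw [Complex.norm_real, Real.norm_eq_abs, abs_of_pos hc0]
  have hPk : P n (k + 1) (c : ℂ) = 1 := by rw [P_ofReal, hq, Complex.ofReal_one]
  obtain ⟨x, ⟨m, hm, hxm⟩, hx⟩ := exists_centre hn2 (c := (c : ℂ)) (j := k + 1)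
    (by
      rw [hcn]
      have : c ^ (n - 1) ≤ 1 := pow_le_one₀ hc0.le hc1
      linarith) (by omega)
    (by
      rw [hPk, norm_one, one_pow]
      norm_num)
  have hLam : Lam n (P n (k + 1) (c : ℂ)) = 0 := by
    rw [hPk, Lam, norm_one, one_pow, mul_one]
    apply max_eq_left
    rw [one_div, Real.log_inv]
    linarith
  rw [hLam, hPk, norm_one, mul_one, add_zero, mul_one, ← hK] at hx
  obtain ⟨d, hd, hd1, hd2⟩ := deriv_ge hn2 hc0 k (by rw [hq])
  have hdn : ‖(d : ℂ)‖ = d := by
    rw [Complex.norm_real, Real.norm_eq_abs, abs_of_pos (by linarith)]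
  rw [hd, hdn] at hx
  have hxM := centre_mem hm hxm
  have hyM : (starRingEnd ℂ) x ∈ N62a1eb23.multibrotSet n := by
    apply centre_mem hm
    rw [conj_P, hxm, map_zero]
  -- the product
  have hprod : 1 / 2 * ∏ i ∈ Finset.range k, Real.log^[i + 1] (n : ℝ) ≤ d := by
    refine (prod_ge hA10 hk).trans (le_trans ?_ hd2)
    rw [← Finset.prod_range_reflect (fun i => (n : ℝ) * q n (i + 1) c ^ n) k]
    apply Finset.prod_le_prod
    · intro i hi
      have hi' := Finset.mem_range.mp hi
      -- positivity of the factors
      have h1 := L_double hA10 hk (m := i) (by omega)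
      have h2 : 4 * (X + 2) ≤ Real.log^[k] (n : ℝ) := by
        rw [← L_exp (by linarith) hk (i := k) (by omega)]
        exact four_mul_le_exp (by linarith)
      have h3 : ∀ m, i + 1 + m ≤ k → Real.log^[i + 1 + m] (n : ℝ) ≤ Real.log^[i + 1] n := by
        intro m
        induction m with
        | zero => intro _; exact le_rfl
        | succ m ihm =>
          intro hm
          refine le_trans ?_ (ihm (by omega))
          have h8 := L_double hA10 hk (m := i + 1 + m) (by omega)
          have h9 := L_ge hk (i := i + 1 + m + 1) (by omega)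
          rw [show i + 1 + (m + 1) = i + 1 + m + 1 by ring]
          linarith
      have h4 := h3 (k - (i + 1)) (by omega)
      rw [show i + 1 + (k - (i + 1)) = k by omega] at h4
      linarith
    · intro i hi
      have hi' := Finset.mem_range.mp hi
      have h1 := ht3 i hi'
      rw [show k - 1 - i + 1 = k - i by omega]
      exact h1
  have hdist : dist x ((starRingEnd ℂ) x) ≤ 2 * ‖x - c‖ := by
    rw [dist_eq_norm]
    have h1 : x - (starRingEnd ℂ) x = (x - c) - (starRingEnd ℂ) (x - c) := by
      rw [map_sub, Complex.conj_ofReal]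
      ring
    rw [h1]
    refine (norm_sub_le _ _).trans ?_
    rw [Complex.norm_conj]
    linarith
  have hΛ0 : 0 ≤ ∏ i ∈ Finset.range k, Real.log^[i + 1] (n : ℝ) := by
    apply Finset.prod_nonneg
    intro i hi
    have hi' := Finset.mem_range.mp hi
    have := L_ge hk (i := i + 1) (by omega)
    linarith
  refine ⟨x, hxM, (starRingEnd ℂ) x, hyM, ?_, ?_⟩
  · calc n * dist x ((starRingEnd ℂ) x) * ∏ i ∈ Finset.range k, Real.log^[i + 1] (n : ℝ)
        ≤ n * (2 * ‖x - c‖) * (2 * d) := by
          gcongr
          linarith
      _ = 4 * (n * d * ‖x - c‖) := by ring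
      _ ≤ 4 * K := by gcongr
      _ ≤ 100 * K := by linarith
  · intro S hSM hS hxS hyS
    -- a real point of `S`
    obtain ⟨s, hsS, hs0⟩ : ∃ s ∈ S, s.im = 0 := by
      rcases le_total 0 x.im with h0 | h0
      · have h1 := hS.intermediate_value hyS hxS Complex.continuous_im.continuousOn
        have h2 : (0 : ℝ) ∈ Icc ((starRingEnd ℂ) x).im x.im := by
          rw [Complex.conj_im]
          exact ⟨by linarith, h0⟩
        obtain ⟨s, hs, h3⟩ := h1 h2
        exact ⟨s, hs, h3⟩
      · have h1 := hS.intermediate_value hxS hyS Complex.continuous_im.continuousOn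
        have h2 : (0 : ℝ) ∈ Icc x.im ((starRingEnd ℂ) x).im := by
          rw [Complex.conj_im]
          exact ⟨h0, by linarith⟩
        obtain ⟨s, hs, h3⟩ := h1 h2
        exact ⟨s, hs, h3⟩
    have hsre : s = (s.re : ℂ) := by
      apply Complex.ext
      · simp
      · simpa using hs0
    have htn : t ≤ n := by
      rw [ht]
      have h1 : Real.log (n * c ^ n) ≤ Real.log n := by
        apply Real.log_le_log (by positivity)
        have : c ^ n ≤ 1 := pow_le_one₀ hc0.le hc1
        nlinarith
      have h2 := Real.log_le_sub_one_of_pos hn0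
      linarith
    have hkey : t / 4 ≤ n * (c - s.re) := by
      rcases le_or_gt s.re 0 with h0 | h0
      · nlinarith
      · have hsM := hSM hsS
        rw [hsre] at hsM
        have h1 := real_mem hn2 h0 hsM
        have h2 : Real.log (n * s.re ^ (n - 1)) ≤ 0 := Real.log_nonpos (by positivity) h1
        rw [Real.log_mul hn0.ne' (by positivity), Real.log_pow, Nat.cast_sub (by omega),
          Nat.cast_one] at h2
        have h3 : t = Real.log n + n * Real.log c := by
          rw [ht, Real.log_mul hn0.ne' (by positivity), Real.log_pow]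
        have h4 : n * Real.log s.re ≤ -Real.log n := by
          have h5 : Real.log s.re ≤ 0 := by
            by_contra hcon
            push Not at hcon
            have h6 : (0:ℝ) ≤ n - 1 := by
              have : (2 : ℝ) ≤ n := by exact_mod_cast hn2
              linarith
            nlinarith
          linarith
        have h5 : Real.log s.re - Real.log c ≤ -(t / n) := by
          have h6 : n * (Real.log s.re - Real.log c) ≤ n * (-(t / n)) := by
            have h7 : n * (-(t / n)) = -t := by field_simp
            rw [h7]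
            linarith
          exact le_of_mul_le_mul_left h6 hn0
        have h6 : s.re ≤ c * Real.exp (-(t / n)) := by
          have h7 : Real.exp (Real.log s.re) ≤ Real.exp (Real.log c + -(t / n)) :=
            Real.exp_le_exp.2 (by linarith)
          rwa [Real.exp_log h0, Real.exp_add, Real.exp_log hc0] at h7
        have htn0 : 0 ≤ t / n := by
          have : 0 ≤ t := by linarith
          positivity
        have h7 : Real.exp (-(t / n)) ≤ 1 - t / n / 2 := by
          have h8 : Real.exp (-(t / n)) ≤ 1 / (1 + t / n) := by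
            rw [Real.exp_neg, ← one_div]
            apply one_div_le_one_div_of_le (by linarith)
            have := Real.add_one_le_exp (t / n)
            linarith
          have h9 : t / n ≤ 1 := by
            rw [div_le_one hn0]
            exact htn
          refine h8.trans ?_
          rw [div_le_iff₀ (by linarith)]
          nlinarith
        have h8 : c * (t / n / 2) ≤ c - s.re := by nlinarith
        have h9 : n * (c * (t / n / 2)) = c * t / 2 := by field_simp
        have h10 : c * t / 2 ≤ n * (c - s.re) := by
          rw [← h9]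
          gcongr
        have : 0 ≤ t := by linarith
        nlinarith
    have hbdd : Bornology.IsBounded S :=
      (Pool.Agent.H712R2.isCompact_multibrot hn2).isBounded.subset hSM
    have hdiam : ‖x - s‖ ≤ Metric.diam S := by
      rw [← dist_eq_norm]
      exact Metric.dist_le_diam_of_mem hbdd hxS hsS
    have h1 : x.re - s.re ≤ ‖x - s‖ := by
      have := Complex.re_le_norm (x - s)
      rwa [Complex.sub_re] at this
    have h2 : c - x.re ≤ ‖x - c‖ := by
      have := Complex.abs_re_le_norm (x - c)
      rw [Complex.sub_re, Complex.ofReal_re] at this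
      have := neg_le_of_abs_le this
      linarith
    have h3 : n * ‖x - c‖ ≤ K := by
      have h4 : n * 1 * ‖x - c‖ ≤ n * d * ‖x - c‖ := by gcongr
      linarith
    have h4 : n * (c - s.re) ≤ n * Metric.diam S + K := by nlinarith
    have h5 : X / 8 ≤ n * Metric.diam S := by linarith
    have h6 : 0 ≤ n * Metric.diam S := by
      have := Metric.diam_nonneg (s := S)
      positivity
    nlinarith

end Pool.Agent.Helper134.Sharp
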